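import Pool.Agent.H3.VR1

namespace Pool.Agent.Results.MP_bc4532_gt.Torus

open Pool.Agent.H3.VR

/-- On the flat torus at scale `1/2`, whatever the space `Z`, there are arbitrarily dense finite
subsets whose Vietoris-Rips complex is not homotopy equivalent to `Z`. -/
theorem result : ∀ (Z : Type) [TopologicalSpace Z] (ε : ℝ), 0 < ε → ∃ X : Finset Torus,
    (∀ y, ∃ x ∈ X, dist y x < ε) ∧
      IsEmpty (ContinuousMap.HomotopyEquiv (rips X (1 / 2)) Z) :=
  main

end Pool.Agent.Results.MP_bc4532_gt.Torus
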